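import Mathlib
import Pool.Agent.H759R2.Kad.Props

/-!
The block bound for the amplifications of a symmetric derivation.
-/

open scoped ComplexOrder InnerProductSpace ComplexConjugate
open Finset

noncomputable section

namespace H759R2.Kad

namespace Block

set_option linter.unusedSectionVars false

universe u v

section mat

variable {A : Type u} [CStarAlgebra A] [PartialOrder A] [StarOrderedRing A]
variable {α β : Type} [Fintype α] [DecidableEq α] [Fintype β] [DecidableEq β]

/-- the block `(i, j)` -/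
def blk (Z : CStarMatrix (α × β) (α × β) A) (i j : α) : CStarMatrix β β A :=
  CStarMatrix.ofMatrix fun b b' => Z (i, b) (j, b')

/-- the matrix with block `(i, j)` equal to `Y`, zero elsewhere -/
def put (i j : α) (Y : CStarMatrix β β A) : CStarMatrix (α × β) (α × β) A :=
  CStarMatrix.ofMatrix fun p q => if p.1 = i ∧ q.1 = j then Y p.2 q.2 else 0

omit [PartialOrder A] [StarOrderedRing A] [Fintype α] [DecidableEq α] [Fintype β]
  [DecidableEq β] in
theorem blk_apply (Z : CStarMatrix (α × β) (α × β) A) (i j : α) (b b' : β) :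
    blk Z i j b b' = Z (i, b) (j, b') := rfl

omit [PartialOrder A] [StarOrderedRing A] [Fintype α] [Fintype β] [DecidableEq β] in
theorem put_apply (i j : α) (Y : CStarMatrix β β A) (p q : α × β) :
    put i j Y p q = if p.1 = i ∧ q.1 = j then Y p.2 q.2 else 0 := rfl

omit [PartialOrder A] [StarOrderedRing A] [Fintype α] [DecidableEq α] [Fintype β]
  [DecidableEq β] in
theorem blk_ext {Z W : CStarMatrix (α × β) (α × β) A} (h : ∀ i j, blk Z i j = blk W i j) :
    Z = W := by
  ext p q
  have := congrFun (congrFun (h p.1 q.1) p.2) q.2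
  simpa [blk_apply] using this

omit [PartialOrder A] [StarOrderedRing A] [DecidableEq α] [DecidableEq β] in
theorem blk_mul (Z W : CStarMatrix (α × β) (α × β) A) (i j : α) :
    blk (Z * W) i j = ∑ k, blk Z i k * blk W k j := by
  ext b b'
  rw [blk_apply, CStarMatrix.mul_apply, Fintype.sum_prod_type]
  have : (∑ k, blk Z i k * blk W k j) b b' = ∑ k, (blk Z i k * blk W k j) b b' := by
    have h := Matrix.sum_apply b b' (Finset.univ)
      (fun k => (blk Z i k * blk W k j : Matrix β β A))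
    exact h
  rw [this]
  refine Finset.sum_congr rfl fun k _ => ?_
  rw [CStarMatrix.mul_apply]
  rfl

omit [PartialOrder A] [StarOrderedRing A] [Fintype α] [DecidableEq α] [Fintype β]
  [DecidableEq β] in
theorem blk_star (Z : CStarMatrix (α × β) (α × β) A) (i j : α) :
    blk (star Z) i j = star (blk Z j i) := by
  ext b b'
  rw [blk_apply, CStarMatrix.star_apply, CStarMatrix.star_apply, blk_apply]

omit [PartialOrder A] [StarOrderedRing A] [Fintype α] [Fintype β] [DecidableEq β] in
theorem blk_put (i j : α) (Y : CStarMatrix β β A) (r s : α) :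
    blk (put i j Y) r s = if r = i ∧ s = j then Y else 0 := by
  ext b b'
  rw [blk_apply, put_apply]
  by_cases h : r = i ∧ s = j <;> simp [h]

omit [PartialOrder A] [StarOrderedRing A] in
theorem blk_one (r s : α) :
    blk (1 : CStarMatrix (α × β) (α × β) A) r s = if r = s then 1 else 0 := by
  ext b b'
  rw [blk_apply, CStarMatrix.one_apply]
  by_cases h : r = s
  · subst h
    simp [CStarMatrix.one_apply]
  · simp [h]

omit [PartialOrder A] [StarOrderedRing A] [Fintype α] [DecidableEq α] [Fintype β]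
  [DecidableEq β] in
theorem blk_add (Z W : CStarMatrix (α × β) (α × β) A) (r s : α) :
    blk (Z + W) r s = blk Z r s + blk W r s := rfl

omit [PartialOrder A] [StarOrderedRing A] [Fintype α] [DecidableEq α] [Fintype β]
  [DecidableEq β] in
theorem blk_smul (c : ℂ) (Z : CStarMatrix (α × β) (α × β) A) (r s : α) :
    blk (c • Z) r s = c • blk Z r s := rfl

omit [PartialOrder A] [StarOrderedRing A] [Fintype α] [DecidableEq α] [Fintype β]
  [DecidableEq β] in
theorem blk_sum {κ : Type*} (S : Finset κ) (f : κ → CStarMatrix (α × β) (α × β) A) (r s : α) :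
    blk (∑ k ∈ S, f k) r s = ∑ k ∈ S, blk (f k) r s := by
  classical
  induction S using Finset.induction_on with
  | empty => rfl
  | insert a S ha ih => rw [Finset.sum_insert ha, Finset.sum_insert ha, blk_add, ih]

omit [PartialOrder A] [StarOrderedRing A] [DecidableEq β] in
theorem put_mul_mul_put (i a : α) (g h : CStarMatrix β β A)
    (W : CStarMatrix (α × β) (α × β) A) :
    put a i g * W * put i a h = put a a (g * blk W i i * h) := by
  refine blk_ext fun r s => ?_
  simp only [blk_mul, blk_put]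
  by_cases hr : r = a
  · by_cases hs : s = a
    · subst hr; subst hs
      simp [ite_mul, mul_ite, Finset.sum_ite_eq']
    · simp [hs]
  · simp [hr]

omit [PartialOrder A] [StarOrderedRing A] in
theorem put_star (i j : α) (Y : CStarMatrix β β A) : star (put i j Y) = put j i (star Y) := by
  refine blk_ext fun r s => ?_
  rw [blk_star, blk_put, blk_put]
  by_cases h : s = i ∧ r = j
  · rw [if_pos h, if_pos ⟨h.2, h.1⟩]
  · rw [if_neg h, if_neg fun h' => h ⟨h'.2, h'.1⟩, star_zero]

omit [PartialOrder A] [StarOrderedRing A] [DecidableEq β] in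
theorem put_mul_put (i j k : α) (Y Z : CStarMatrix β β A) :
    put i j Y * put j k Z = put i k (Y * Z) := by
  refine blk_ext fun r s => ?_
  simp only [blk_mul, blk_put]
  by_cases hr : r = i
  · by_cases hs : s = k
    · subst hr; subst hs
      simp [ite_mul, mul_ite, Finset.sum_ite_eq']
    · simp [hs]
  · simp [hr]

omit [PartialOrder A] [StarOrderedRing A] in
theorem sum_put_one : ∑ i, put i i (1 : CStarMatrix β β A) =
    (1 : CStarMatrix (α × β) (α × β) A) := by
  refine blk_ext fun r s => ?_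
  rw [blk_sum, blk_one]
  simp only [blk_put]
  by_cases h : r = s
  · subst h
    simp
  · rw [if_neg h]
    refine Finset.sum_eq_zero fun i _ => ?_
    rw [if_neg]
    rintro ⟨rfl, rfl⟩
    exact h rfl

omit [PartialOrder A] [StarOrderedRing A] [DecidableEq β] in
theorem blk_put_mul (a i j : α) (g : CStarMatrix β β A) (X : CStarMatrix (α × β) (α × β) A) :
    blk (put a i g * X) a j = g * blk X i j := by
  simp only [blk_mul, blk_put]
  simp [ite_mul, Finset.sum_ite_eq']

/-- placing a block on the diagonal, as a *-homomorphism -/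
def putHom (i : α) : CStarMatrix β β A →⋆ₙₐ[ℂ] CStarMatrix (α × β) (α × β) A where
  toFun := put i i
  map_smul' c Y := by
    refine blk_ext fun r s => ?_
    rw [blk_smul, blk_put, blk_put]
    by_cases h : r = i ∧ s = i <;> simp [h]
  map_zero' := by
    refine blk_ext fun r s => ?_
    rw [blk_put]
    simp
    rfl
  map_add' Y Z := by
    refine blk_ext fun r s => ?_
    rw [blk_add, blk_put, blk_put, blk_put]
    by_cases h : r = i ∧ s = i <;> simp [h]
  map_mul' Y Z := (put_mul_put i i i Y Z).symm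
  map_star' Y := (put_star i i Y).symm

theorem norm_put (i : α) (Y : CStarMatrix β β A) : ‖put i i Y‖ = ‖Y‖ := by
  have hinj : Function.Injective (putHom (A := A) (β := β) i) := by
    intro Y Z h
    have h1 : blk (put i i Y) i i = blk (put i i Z) i i := congrArg (fun W => blk W i i) h
    rw [blk_put, blk_put] at h1
    simpa using h1
  exact NonUnitalStarAlgHom.norm_map (putHom i) hinj Y

theorem norm_one_le (B : Type*) [CStarAlgebra B] : ‖(1 : B)‖ ≤ 1 := by
  have h : ‖(1 : B)‖ * ‖(1 : B)‖ = ‖(1 : B)‖ := by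
    rw [← CStarRing.norm_star_mul_self, star_one, one_mul]
  rcases eq_or_ne (‖(1 : B)‖) 0 with h0 | h0
  · rw [h0]; exact zero_le_one
  · have := mul_right_cancel₀ h0 (h.trans (one_mul _).symm)
    rw [this]

theorem norm_unitary_le {B : Type*} [CStarAlgebra B] (g : unitary B) : ‖(g : B)‖ ≤ 1 := by
  have h := CStarRing.norm_coe_unitary_mul g (1 : B)
  rw [mul_one] at h
  rw [h]
  exact norm_one_le B

theorem norm_blk_diag (W : CStarMatrix (α × β) (α × β) A) (i : α) : ‖blk W i i‖ ≤ ‖W‖ := by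
  have h : put i i (1 : CStarMatrix β β A) * W * put i i 1 = put i i (blk W i i) := by
    rw [put_mul_mul_put, one_mul, mul_one]
  have h1 : ‖put i i (1 : CStarMatrix β β A)‖ ≤ 1 := by
    rw [norm_put]
    exact norm_one_le _
  calc ‖blk W i i‖ = ‖put i i (blk W i i)‖ := (norm_put i _).symm
    _ = ‖put i i (1 : CStarMatrix β β A) * W * put i i 1‖ := by rw [h]
    _ ≤ ‖put i i (1 : CStarMatrix β β A)‖ * ‖W‖ * ‖put i i (1 : CStarMatrix β β A)‖ :=
        (norm_mul_le _ _).trans (mul_le_mul_of_nonneg_right (norm_mul_le _ _) (norm_nonneg _))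
    _ ≤ 1 * ‖W‖ * 1 := by
        refine mul_le_mul ?_ h1 (norm_nonneg _) (by positivity)
        exact mul_le_mul_of_nonneg_right h1 (norm_nonneg _)
    _ = ‖W‖ := by ring

omit [PartialOrder A] [StarOrderedRing A] in
theorem row_eq (Z : CStarMatrix (α × β) (α × β) A) (a : α) :
    ∑ j, blk Z a j * star (blk Z a j) = blk (Z * star Z) a a := by
  rw [blk_mul]
  exact Finset.sum_congr rfl fun j _ => by rw [blk_star]

theorem row_norm (Z : CStarMatrix (α × β) (α × β) A) (a : α) :
    ‖∑ j, blk Z a j * star (blk Z a j)‖ ≤ ‖Z‖ ^ 2 := by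
  rw [row_eq]
  refine (norm_blk_diag _ _).trans ?_
  rw [sq, CStarRing.norm_self_mul_star]

end mat

section vec

variable {A : Type u} [CStarAlgebra A] [PartialOrder A] [StarOrderedRing A]
variable {H : Type v} [NormedAddCommGroup H] [InnerProductSpace ℂ H]
variable {α β : Type} [Fintype α] [DecidableEq α] [Fintype β] [DecidableEq β]

/-- a block of a vector -/
def sec (i : α) (ξ : HH (α × β) H) : HH β H := WithLp.toLp 2 (fun b => ξ (i, b))

omit [DecidableEq α] [DecidableEq β] [InnerProductSpace ℂ H] in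
theorem sec_apply (i : α) (ξ : HH (α × β) H) (b : β) : sec i ξ b = ξ (i, b) := rfl

omit [DecidableEq α] [DecidableEq β] in
theorem sum_sec (ξ : HH (α × β) H) : ∑ i, ‖sec i ξ‖ ^ 2 = ‖ξ‖ ^ 2 := by
  rw [PiLp.norm_sq_eq_of_L2, Fintype.sum_prod_type]
  refine Finset.sum_congr rfl fun i _ => ?_
  rw [PiLp.norm_sq_eq_of_L2]
  rfl

omit [PartialOrder A] [StarOrderedRing A] [DecidableEq α] [DecidableEq β] in
theorem sec_amp (S : A →ₗ[ℂ] (H →L[ℂ] H)) (Z : CStarMatrix (α × β) (α × β) A)
    (ξ : HH (α × β) H) (i : α) :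
    sec i (amp S (α × β) Z ξ) = ∑ j, amp S β (blk Z i j) (sec j ξ) := by
  ext b
  rw [sec_apply, amp_apply, Fintype.sum_prod_type]
  have : (∑ j, amp S β (blk Z i j) (sec j ξ)) b = ∑ j, (amp S β (blk Z i j) (sec j ξ)) b := by
    simp
  rw [this]
  refine Finset.sum_congr rfl fun j _ => ?_
  rw [amp_apply]
  rfl

/-- the row functional -/
def rowMap (D : A →ₗ[ℂ] (H →L[ℂ] H)) (ξ : HH (α × β) H) (a : α) :
    CStarMatrix (α × β) (α × β) A →ₗ[ℂ] HH β H where
  toFun Z := ∑ j, amp D β (blk Z a j) (sec j ξ)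
  map_add' Z W := by
    rw [← Finset.sum_add_distrib]
    refine Finset.sum_congr rfl fun j _ => ?_
    rw [blk_add, map_add]
    rfl
  map_smul' c Z := by
    rw [RingHom.id_apply, Finset.smul_sum]
    refine Finset.sum_congr rfl fun j _ => ?_
    rw [blk_smul, map_smul]
    rfl

omit [PartialOrder A] [StarOrderedRing A] [DecidableEq α] [DecidableEq β] in
theorem rowMap_apply (D : A →ₗ[ℂ] (H →L[ℂ] H)) (ξ : HH (α × β) H) (a : α)
    (Z : CStarMatrix (α × β) (α × β) A) :
    rowMap D ξ a Z = ∑ j, amp D β (blk Z a j) (sec j ξ) := rfl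

end vec

section trace

variable {A : Type u} [CStarAlgebra A]
variable {β : Type} [Fintype β] [DecidableEq β]

theorem tens_unitary {s : Matrix β β ℂ} (hs : s ∈ unitary (Matrix β β ℂ)) {h : A}
    (hh : h ∈ unitary A) [PartialOrder A] [StarOrderedRing A] :
    tens s h ∈ unitary (CStarMatrix β β A) := by
  have e1 : star s * s = 1 := (Unitary.mem_iff.mp hs).1
  have e2 : s * star s = 1 := (Unitary.mem_iff.mp hs).2
  have f1 : star h * h = 1 := (Unitary.mem_iff.mp hh).1
  have f2 : h * star h = 1 := (Unitary.mem_iff.mp hh).2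
  rw [Unitary.mem_iff]
  constructor
  · ext i j
    rw [CStarMatrix.mul_apply, CStarMatrix.one_apply]
    have h1 : ∀ k, (star (tens s h)) i k * (tens s h) k j = (star s i k * s k j) • (1 : A) := by
      intro k
      rw [CStarMatrix.star_apply]
      change star (s k i • h) * (s k j • h) = (star s i k * s k j) • (1 : A)
      rw [star_smul, smul_mul_smul_comm, f1, Matrix.star_apply]
    simp only [h1]
    rw [← Finset.sum_smul, ← Matrix.mul_apply, e1, Matrix.one_apply]
    by_cases hij : i = j <;> simp [hij]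
  · ext i j
    rw [CStarMatrix.mul_apply, CStarMatrix.one_apply]
    have h1 : ∀ k, (tens s h) i k * (star (tens s h)) k j = (s i k * star s k j) • (1 : A) := by
      intro k
      rw [CStarMatrix.star_apply]
      change (s i k • h) * star (s j k • h) = (s i k * star s k j) • (1 : A)
      rw [star_smul, smul_mul_smul_comm, f2, Matrix.star_apply]
    simp only [h1]
    rw [← Finset.sum_smul, ← Matrix.mul_apply, e2, Matrix.one_apply]
    by_cases hij : i = j <;> simp [hij]

theorem hasDixmier_ntr [PartialOrder A] [StarOrderedRing A] [Nonempty β] (h3 : St_dix.{u})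
    {τ : A →ₗ[ℂ] ℂ} (hτ : IsTracialState τ) (hd : HasDixmier τ) :
    IsTracialState (ntr τ β) ∧ HasDixmier (ntr τ β) := by
  obtain ⟨h4, h5⟩ := h3 A τ hτ hd β
  refine ⟨h4, fun X hX ε hε => ?_⟩
  obtain ⟨N, s, h, hN⟩ := h5 X hX ε hε
  exact ⟨N, fun k => ⟨tens (s k : Matrix β β ℂ) (h k : A), tens_unitary (s k).2 (h k).2⟩, hN⟩

end trace

theorem norm_hom_unitary {B : Type u} [CStarAlgebra B] {K : Type v} [NormedAddCommGroup K]
    [InnerProductSpace ℂ K] [CompleteSpace K] (π : B →⋆ₐ[ℂ] (K →L[ℂ] K)) (g : unitary B)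
    (x : K) : ‖x‖ ≤ ‖π (g : B) x‖ := by
  have h1 : π (star (g : B)) (π (g : B) x) = x := by
    have : (π (star (g : B)) * π (g : B)) x = x := by
      rw [← map_mul, Unitary.coe_star_mul_self, map_one]
      rfl
    exact this
  have h2 : ‖π (star (g : B))‖ ≤ 1 := by
    refine (NonUnitalStarAlgHom.norm_apply_le π _).trans ?_
    rw [norm_star]
    exact norm_unitary_le g
  calc ‖x‖ = ‖π (star (g : B)) (π (g : B) x)‖ := by rw [h1]
    _ ≤ ‖π (star (g : B))‖ * ‖π (g : B) x‖ := ContinuousLinearMap.le_opNorm _ _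
    _ ≤ 1 * ‖π (g : B) x‖ := mul_le_mul_of_nonneg_right h2 (norm_nonneg _)
    _ = _ := one_mul _

end Block

open Block

universe u v

theorem prove_block (h1 : St_gt.{u, v}) (h2 : St_col.{u, v}) (h3 : St_dix.{u}) :
    St_block.{u, v} := by
  intro A _ _ _ H _ _ _ π D τ hD hτ hdix α β _ _ _ _ _ _ γ hγ hamp X ξ
  obtain ⟨hτb, hdb⟩ := hasDixmier_ntr (β := β) h3 hτ hdix
  have hDb : IsDer (ampHom π β) (amp D β) := hD.amp β
  obtain ⟨a0⟩ := ‹Nonempty α›
  set Mc : ℝ := √14 * γ * ‖ξ‖ with hMc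
  have hM0 : 0 ≤ Mc := by positivity
  have hM2 : Mc ^ 2 = 14 * γ ^ 2 * ‖ξ‖ ^ 2 := by
    rw [hMc, mul_pow, mul_pow, Real.sq_sqrt (by norm_num)]
  -- the row bound
  have hrow : ∀ Z : CStarMatrix (α × β) (α × β) A, ‖rowMap D ξ a0 Z‖ ≤ Mc * ‖Z‖ := by
    intro Z
    have h := (h2 (CStarMatrix β β A) (HH β H) (ampHom π β) (amp D β) (ntr τ β) hDb hτb hdb γ hγ
      hamp α (fun j => blk Z a0 j)).2 (fun j => sec j ξ)
    rw [sum_sec] at h
    have h5 : ‖rowMap D ξ a0 Z‖ ^ 2 ≤ (Mc * ‖Z‖) ^ 2 := by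
      rw [rowMap_apply, mul_pow, hM2]
      refine h.trans ?_
      have h6 := row_norm Z a0
      have h7 : 0 ≤ 14 * γ ^ 2 := by positivity
      have h8 : 14 * γ ^ 2 * ‖∑ j, blk Z a0 j * star (blk Z a0 j)‖ ≤ 14 * γ ^ 2 * ‖Z‖ ^ 2 :=
        mul_le_mul_of_nonneg_left h6 h7
      calc 14 * γ ^ 2 * ‖∑ j, blk Z a0 j * star (blk Z a0 j)‖ * ‖ξ‖ ^ 2
          ≤ 14 * γ ^ 2 * ‖Z‖ ^ 2 * ‖ξ‖ ^ 2 := mul_le_mul_of_nonneg_right h8 (by positivity)
        _ = _ := by ring
    exact (pow_le_pow_iff_left₀ (norm_nonneg _) (by positivity) two_ne_zero).mp h5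
  -- the averaged block
  set p : CStarMatrix β β A := ∑ i, blk (X * star X) i i with hp
  have hpsa : IsSelfAdjoint p := by
    rw [isSelfAdjoint_iff, hp, star_sum]
    refine Finset.sum_congr rfl fun i _ => ?_
    rw [← blk_star, star_mul, star_star]
  set trX : ℝ := (tr τ (α × β) (star X * X)).re with htr
  set l : ℝ := (Fintype.card β : ℝ) with hl
  have hl0 : 0 < l := by
    rw [hl]
    exact_mod_cast Fintype.card_pos
  have htrX : tr τ (α × β) (star X * X) = ∑ q : α × β, ∑ r : α × β,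
      τ (star (X r q) * X r q) := by
    rw [tr_apply]
    refine Finset.sum_congr rfl fun q _ => ?_
    rw [CStarMatrix.mul_apply, map_sum]
    exact Finset.sum_congr rfl fun r _ => by rw [CStarMatrix.star_apply]
  have htrX2 : tr τ (α × β) (X * star X) = tr τ (α × β) (star X * X) := by
    rw [htrX, tr_apply, Finset.sum_comm]
    refine Finset.sum_congr rfl fun q _ => ?_
    rw [CStarMatrix.mul_apply, map_sum]
    refine Finset.sum_congr rfl fun r _ => ?_
    rw [CStarMatrix.star_apply, hτ.comm]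
  have htr0 : 0 ≤ tr τ (α × β) (star X * X) := by
    rw [htrX]
    exact Finset.sum_nonneg fun q _ => Finset.sum_nonneg fun r _ => hτ.pos _
  have htr0' : 0 ≤ trX := (Complex.nonneg_iff.mp htr0).1
  have htrc : tr τ (α × β) (star X * X) = (trX : ℂ) := by
    rw [htr]
    exact Complex.ext rfl (by simpa using (Complex.nonneg_iff.mp htr0).2.symm)
  have hntr : ntr τ β p = ((trX / l : ℝ) : ℂ) := by
    have e1 : tr τ β p = tr τ (α × β) (X * star X) := by
      rw [hp, map_sum, tr_apply, Fintype.sum_prod_type]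
      refine Finset.sum_congr rfl fun i _ => ?_
      rw [tr_apply]
      rfl
    rw [ntr, LinearMap.smul_apply, e1, htrX2, htrc, smul_eq_mul]
    push_cast
    rw [hl]
    push_cast
    ring
  -- the bound with an error
  have main : ∀ ε : ℝ, 0 < ε → ‖amp D (α × β) X ξ‖ ^ 2 ≤
      γ ^ 2 * ‖ξ‖ ^ 2 * (86 * ‖X‖ ^ 2 + 84 / l * trX) + 84 * γ ^ 2 * ‖ξ‖ ^ 2 * ε := by
    intro ε hε
    obtain ⟨N, g, hg⟩ := hdb p hpsa ε hε
    have hN0 : (0 : ℝ) < (N : ℝ) + 1 := by positivity
    -- norm of the sum of conjugates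
    have hsum : ‖∑ k, (g k : CStarMatrix β β A) * p * star (g k : CStarMatrix β β A)‖ ≤
        (N + 1) * (trX / l + ε) := by
      have e1 : ‖((N + 1 : ℂ))⁻¹ • ∑ k, (g k : CStarMatrix β β A) * p *
          star (g k : CStarMatrix β β A)‖ ≤ trX / l + ε := by
        have e2 : ‖algebraMap ℂ (CStarMatrix β β A) (ntr τ β p)‖ ≤ trX / l := by
          rw [hntr, norm_algebraMap]
          have e3 : ‖((trX / l : ℝ) : ℂ)‖ = trX / l := by
            rw [Complex.norm_real, Real.norm_of_nonneg (by positivity)]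
          rw [e3]
          have e4 := norm_one_le (CStarMatrix β β A)
          have e5 : 0 ≤ trX / l := by positivity
          nlinarith
        calc ‖((N + 1 : ℂ))⁻¹ • ∑ k, (g k : CStarMatrix β β A) * p *
            star (g k : CStarMatrix β β A)‖ = ‖(((N + 1 : ℂ))⁻¹ • ∑ k,
              (g k : CStarMatrix β β A) * p * star (g k : CStarMatrix β β A) -
              algebraMap ℂ (CStarMatrix β β A) (ntr τ β p)) +
              algebraMap ℂ (CStarMatrix β β A) (ntr τ β p)‖ := by
              rw [sub_add_cancel]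
          _ ≤ _ + _ := norm_add_le _ _
          _ ≤ ε + trX / l := add_le_add hg e2
          _ = _ := by ring
      rw [norm_smul, norm_inv] at e1
      have e6 : ‖(N + 1 : ℂ)‖ = (N : ℝ) + 1 := by
        have : (N + 1 : ℂ) = (((N : ℝ) + 1 : ℝ) : ℂ) := by push_cast; ring
        rw [this, Complex.norm_real, Real.norm_of_nonneg hN0.le]
      rw [e6, inv_mul_le_iff₀ hN0] at e1
      exact e1
    -- the family
    set x : α × Fin (N + 1) → CStarMatrix (α × β) (α × β) A :=
      fun q => put a0 q.1 (g q.2 : CStarMatrix β β A) * X with hx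
    have e6 : ‖(N + 1 : ℂ)‖ = (N : ℝ) + 1 := by
      have : (N + 1 : ℂ) = (((N : ℝ) + 1 : ℝ) : ℂ) := by push_cast; ring
      rw [this, Complex.norm_real, Real.norm_of_nonneg hN0.le]
    have hcol : ∑ q, star (x q) * x q = (N + 1 : ℂ) • (star X * X) := by
      have e1 : ∀ q, star (x q) * x q = star X * put q.1 q.1 (1 : CStarMatrix β β A) * X := by
        intro q
        rw [hx]
        simp only [star_mul, put_star]
        have e2 : star X * put q.1 a0 (star (g q.2 : CStarMatrix β β A)) *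
            (put a0 q.1 (g q.2 : CStarMatrix β β A) * X) =
            star X * (put q.1 a0 (star (g q.2 : CStarMatrix β β A)) *
              put a0 q.1 (g q.2 : CStarMatrix β β A)) * X := by
          simp only [mul_assoc]
        rw [e2, put_mul_put, Unitary.coe_star_mul_self]
      simp only [e1]
      rw [Fintype.sum_prod_type]
      simp only [Finset.sum_const, Finset.card_univ, Fintype.card_fin]
      rw [← Finset.smul_sum, ← Finset.sum_mul, ← Finset.mul_sum, sum_put_one, mul_one]
      rw [← Nat.cast_smul_eq_nsmul ℂ]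
      push_cast
      rfl
    have hcoln : ‖∑ q, star (x q) * x q‖ = ((N : ℝ) + 1) * ‖X‖ ^ 2 := by
      rw [hcol, norm_smul, e6, CStarRing.norm_star_mul_self, sq]
    have hroww : ∑ q, x q * star (x q) = put a0 a0 (∑ k, (g k : CStarMatrix β β A) * p *
        star (g k : CStarMatrix β β A)) := by
      have e1 : ∀ q, x q * star (x q) = put a0 a0 ((g q.2 : CStarMatrix β β A) *
          blk (X * star X) q.1 q.1 * star (g q.2 : CStarMatrix β β A)) := by
        intro q
        rw [hx]
        simp only [star_mul, put_star]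
        rw [← put_mul_mul_put]
        simp only [mul_assoc]
      simp only [e1]
      have e2 : ∀ f : α × Fin (N + 1) → CStarMatrix β β A,
          ∑ q, put a0 a0 (f q) = put a0 a0 (∑ q, f q) := fun f =>
        (map_sum (putHom (A := A) (β := β) a0) f Finset.univ).symm
      rw [e2 (fun q => (g q.2 : CStarMatrix β β A) *
          blk (X * star X) q.1 q.1 * star (g q.2 : CStarMatrix β β A))]
      congr 1
      rw [Fintype.sum_prod_type, Finset.sum_comm]
      refine Finset.sum_congr rfl fun k _ => ?_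
      rw [hp, Finset.mul_sum, Finset.sum_mul]
    have hrown : ‖∑ q, x q * star (x q)‖ ≤ ((N : ℝ) + 1) * (trX / l + ε) := by
      rw [hroww, norm_put]
      exact hsum
    -- little Grothendieck
    have hgt := h1 (CStarMatrix (α × β) (α × β) A) (HH β H) (rowMap D ξ a0) Mc hM0 hrow
      (α × Fin (N + 1)) x
    have hgt2 : ∑ q, ‖rowMap D ξ a0 (x q)‖ ^ 2 ≤ 42 * γ ^ 2 * ‖ξ‖ ^ 2 *
        (((N : ℝ) + 1) * (‖X‖ ^ 2 + (trX / l + ε))) := by
      refine hgt.trans ?_
      rw [hM2, hcoln]
      have h0 : 0 ≤ 3 * (14 * γ ^ 2 * ‖ξ‖ ^ 2) := by positivity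
      calc 3 * (14 * γ ^ 2 * ‖ξ‖ ^ 2) * (((N : ℝ) + 1) * ‖X‖ ^ 2 + ‖∑ q, x q * star (x q)‖)
          ≤ 3 * (14 * γ ^ 2 * ‖ξ‖ ^ 2) * (((N : ℝ) + 1) * ‖X‖ ^ 2 +
            ((N : ℝ) + 1) * (trX / l + ε)) :=
            mul_le_mul_of_nonneg_left (by linarith) h0
        _ = _ := by ring
    -- Leibniz
    have hleib : ∀ q : α × Fin (N + 1), ‖sec q.1 (amp D (α × β) X ξ)‖ ^ 2 ≤
        2 * ‖rowMap D ξ a0 (x q)‖ ^ 2 +
          2 * γ ^ 2 * ‖sec q.1 (amp π.toLinearMap (α × β) X ξ)‖ ^ 2 := by
      intro q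
      have e1 : rowMap D ξ a0 (x q) =
          ampHom π β (g q.2 : CStarMatrix β β A) (sec q.1 (amp D (α × β) X ξ)) +
          amp D β (g q.2 : CStarMatrix β β A) (sec q.1 (amp π.toLinearMap (α × β) X ξ)) := by
        rw [rowMap_apply, sec_amp, sec_amp, map_sum, map_sum, ← Finset.sum_add_distrib]
        refine Finset.sum_congr rfl fun j _ => ?_
        rw [hx]
        simp only
        rw [blk_put_mul, hDb.leib]
        rfl
      have e2 : ‖sec q.1 (amp D (α × β) X ξ)‖ ≤ ‖rowMap D ξ a0 (x q)‖ +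
          γ * ‖sec q.1 (amp π.toLinearMap (α × β) X ξ)‖ := by
        have e3 := norm_hom_unitary (ampHom π β) (g q.2) (sec q.1 (amp D (α × β) X ξ))
        have e4 : ‖amp D β (g q.2 : CStarMatrix β β A)
            (sec q.1 (amp π.toLinearMap (α × β) X ξ))‖ ≤
            γ * ‖sec q.1 (amp π.toLinearMap (α × β) X ξ)‖ := by
          refine (ContinuousLinearMap.le_opNorm _ _).trans ?_
          refine mul_le_mul_of_nonneg_right ?_ (norm_nonneg _)
          refine (hamp _).trans ?_
          have := norm_unitary_le (g q.2)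
          nlinarith
        have e5 : ampHom π β (g q.2 : CStarMatrix β β A) (sec q.1 (amp D (α × β) X ξ)) =
            rowMap D ξ a0 (x q) - amp D β (g q.2 : CStarMatrix β β A)
              (sec q.1 (amp π.toLinearMap (α × β) X ξ)) := by
          rw [e1, add_sub_cancel_right]
        rw [e5] at e3
        exact e3.trans ((norm_sub_le _ _).trans (add_le_add le_rfl e4))
      have e6 : 0 ≤ ‖sec q.1 (amp D (α × β) X ξ)‖ := norm_nonneg _
      have e7 := pow_le_pow_left₀ e6 e2 2
      nlinarith [sq_nonneg (‖rowMap D ξ a0 (x q)‖ -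
        γ * ‖sec q.1 (amp π.toLinearMap (α × β) X ξ)‖)]
    have hπ : ‖amp π.toLinearMap (α × β) X ξ‖ ≤ ‖X‖ * ‖ξ‖ := by
      have e1 : ‖ampHom π (α × β) X‖ ≤ ‖X‖ := NonUnitalStarAlgHom.norm_apply_le _ _
      exact (ContinuousLinearMap.le_opNorm (ampHom π (α × β) X) ξ).trans
        (mul_le_mul_of_nonneg_right e1 (norm_nonneg _))
    have hπ2 : ‖amp π.toLinearMap (α × β) X ξ‖ ^ 2 ≤ ‖X‖ ^ 2 * ‖ξ‖ ^ 2 := by
      rw [← mul_pow]
      exact pow_le_pow_left₀ (norm_nonneg _) hπ 2
    have htot := Finset.sum_le_sum (s := Finset.univ) fun q _ => hleib q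
    rw [Finset.sum_add_distrib, ← Finset.mul_sum, ← Finset.mul_sum] at htot
    have c1 : ∑ q : α × Fin (N + 1), ‖sec q.1 (amp D (α × β) X ξ)‖ ^ 2 =
        ((N : ℝ) + 1) * ‖amp D (α × β) X ξ‖ ^ 2 := by
      rw [Fintype.sum_prod_type]
      simp only [Finset.sum_const, Finset.card_univ, Fintype.card_fin, nsmul_eq_mul]
      rw [← Finset.mul_sum, sum_sec]
      push_cast
      ring
    have c2 : ∑ q : α × Fin (N + 1), ‖sec q.1 (amp π.toLinearMap (α × β) X ξ)‖ ^ 2 =
        ((N : ℝ) + 1) * ‖amp π.toLinearMap (α × β) X ξ‖ ^ 2 := by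
      rw [Fintype.sum_prod_type]
      simp only [Finset.sum_const, Finset.card_univ, Fintype.card_fin, nsmul_eq_mul]
      rw [← Finset.mul_sum, sum_sec]
      push_cast
      ring
    rw [c1, c2] at htot
    have hfin : ((N : ℝ) + 1) * ‖amp D (α × β) X ξ‖ ^ 2 ≤ ((N : ℝ) + 1) *
        (γ ^ 2 * ‖ξ‖ ^ 2 * (86 * ‖X‖ ^ 2 + 84 / l * trX) + 84 * γ ^ 2 * ‖ξ‖ ^ 2 * ε) := by
      have d1 : 2 * γ ^ 2 * (((N : ℝ) + 1) * ‖amp π.toLinearMap (α × β) X ξ‖ ^ 2) ≤
          2 * γ ^ 2 * (((N : ℝ) + 1) * (‖X‖ ^ 2 * ‖ξ‖ ^ 2)) :=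
        mul_le_mul_of_nonneg_left (mul_le_mul_of_nonneg_left hπ2 hN0.le) (by positivity)
      calc ((N : ℝ) + 1) * ‖amp D (α × β) X ξ‖ ^ 2
          ≤ 2 * (42 * γ ^ 2 * ‖ξ‖ ^ 2 * (((N : ℝ) + 1) * (‖X‖ ^ 2 + (trX / l + ε)))) +
            2 * γ ^ 2 * (((N : ℝ) + 1) * (‖X‖ ^ 2 * ‖ξ‖ ^ 2)) := by linarith
        _ = _ := by
            field_simp
            ring
    exact le_of_mul_le_mul_left hfin hN0
  -- let the error tend to zero
  refine le_of_forall_pos_le_add fun δ hδ => ?_
  have hc : 0 < 84 * γ ^ 2 * ‖ξ‖ ^ 2 + 1 := by positivity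
  have := main (δ / (84 * γ ^ 2 * ‖ξ‖ ^ 2 + 1)) (by positivity)
  refine this.trans (add_le_add le_rfl ?_)
  rw [mul_div_assoc', div_le_iff₀ hc]
  nlinarith [hδ]

end H759R2.Kad
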